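import Pool.Agent.SBQ.AllB

/-!
# MP_cd3775_ag: stubbornness of extreme nonnegative quaternary quartics (full solution)

Every nonnegative quaternary quartic which spans an extreme ray and is not a square is stubborn.
The proof gives this for every nonzero nonnegative quaternary quartic `F` such that no nonzero
quadratic form `G` satisfies `G ^ 2 ≤ F` (`stubborn_of_rigid`).
-/

namespace Pool.Agent.Results.MP_cd3775_ag.ExtremeRaysStubborn

open MvPolynomial (eval)

/-- real polynomials in the four variables `x, y, z, w` -/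
abbrev Poly := MvPolynomial (Fin 4) ℝ

/-- the cone of globally nonnegative quaternary quartics -/
def cone : Set Poly := {F | F.IsHomogeneous 4 ∧ ∀ p : Fin 4 → ℝ, 0 ≤ eval p F}

/-- `F` spans an extreme ray of the cone -/
def SpansExtremeRay (F : Poly) : Prop :=
  F ∈ cone ∧ F ≠ 0 ∧ ∀ F₁ ∈ cone, ∀ F₂ ∈ cone, F = F₁ + F₂ →
    ∃ a b : ℝ, 0 ≤ a ∧ 0 ≤ b ∧ F₁ = a • F ∧ F₂ = b • F

/-- `F` is the square of a real quadratic form -/
def IsSquareForm (F : Poly) : Prop := ∃ H : Poly, H.IsHomogeneous 2 ∧ F = H ^ 2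

/-- `G` is a finite sum of squares of real forms of degree `m` -/
def IsSumOfSquares (m : ℕ) (G : Poly) : Prop :=
  ∃ (n : ℕ) (H : Fin n → Poly), (∀ j, (H j).IsHomogeneous m) ∧ G = ∑ j, H j ^ 2

/-- `F` is stubborn: for every odd `k` the form `F ^ k` (of degree `4 k`) is not a sum of
squares of forms (of degree `2 k`) -/
def Stubborn (F : Poly) : Prop := ∀ k : ℕ, Odd k → ¬ IsSumOfSquares (2 * k) (F ^ k)

theorem stubborn_of_rigid (F : Poly) (hF : F ∈ cone) (h0 : F ≠ 0)
    (h : ∀ G : Poly, G.IsHomogeneous 2 → (∀ p, (eval p G) ^ 2 ≤ eval p F) → G = 0) :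
    Stubborn F := by
  rintro k hk ⟨n, H, hH, heq⟩
  exact SBQ.tMM F ⟨hF.1, hF.2, h0, h⟩ k n H hk hH heq

theorem rigid_of_extreme (F : Poly) (hF : SpansExtremeRay F) (hsq : ¬ IsSquareForm F)
    (G : Poly) (hG : G.IsHomogeneous 2) (hle : ∀ p, (eval p G) ^ 2 ≤ eval p F) : G = 0 := by
  by_contra hG0
  obtain ⟨⟨hF4, hFp⟩, hF0, hext⟩ := hF
  have h1 : G ^ 2 ∈ cone := ⟨by simpa using hG.pow 2, fun p => by
    rw [map_pow]; exact sq_nonneg _⟩
  have h2 : F - G ^ 2 ∈ cone := ⟨hF4.sub (by simpa using hG.pow 2), fun p => by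
    rw [map_sub, map_pow]; linarith [hle p]⟩
  obtain ⟨a, b, ha, -, h3, -⟩ := hext _ h1 _ h2 (by ring)
  have ha0 : a ≠ 0 := by
    rintro rfl
    rw [zero_smul] at h3
    exact hG0 (pow_eq_zero_iff two_ne_zero |>.mp h3)
  have hapos : 0 < a := lt_of_le_of_ne ha (Ne.symm ha0)
  apply hsq
  refine ⟨(Real.sqrt a)⁻¹ • G, ?_, ?_⟩
  · rw [MvPolynomial.smul_eq_C_mul]
    exact hG.C_mul _
  · rw [smul_pow, h3, smul_smul, inv_pow, Real.sq_sqrt ha, inv_mul_cancel₀ ha0, one_smul]

/-- Q1: every nonnegative quaternary quartic which spans an extreme ray and is not a square is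
stubborn. -/
theorem result : ∀ F : Poly, SpansExtremeRay F → ¬ IsSquareForm F → Stubborn F :=
  fun F hF hsq => stubborn_of_rigid F hF.1 hF.2.1 (rigid_of_extreme F hF hsq)

end Pool.Agent.Results.MP_cd3775_ag.ExtremeRaysStubborn
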